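import Pool.Agent.Helper34.DI.C1

/-! MP_506470_co, module C2 of DI: AC_fin (helper42). -/

namespace SetHom

variable {V : Type} {G : SimpleGraph V}

/-- adding a full point to a clique -/
theorem c2_clq_insert [DecidableEq V] {θ : Finset V} (hθ : Clq G θ) {x : V} (hx : Full G x θ) :
    Clq G (insert x θ) := by
  intro a ha b hb hab
  rcases Finset.mem_insert.1 ha with ha1 | ha1 <;> rcases Finset.mem_insert.1 hb with hb1 | hb1
  · exact absurd (ha1.trans hb1.symm) hab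
  · rw [ha1]; exact hx b hb1
  · rw [hb1]; exact (hx a ha1).symm
  · exact hθ a ha1 b hb1 hab

theorem c2_card_insert [DecidableEq V] {θ : Finset V} {x : V} (hx : Full G x θ) :
    (insert x θ).card = θ.card + 1 :=
  Finset.card_insert_of_notMem fun h => G.irrefl (hx x h)

theorem c2_clq_single (w : V) : Clq G {w} := by
  intro a ha b hb hab
  rw [Finset.mem_singleton] at ha hb
  exact absurd (ha.trans hb.symm) hab

theorem AC_fin (hs : SetHomogeneous G) (hcl : ∀ n : ℕ, ∃ A : Finset V, Clq G A ∧ A.card = n)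
    {t : ℕ} (hF : FC G t)
    (hc : ∀ N : ℕ, ∃ (K : Finset V) (x y : V), Clq G K ∧ K.card = N ∧ Full G x K ∧ Full G y K ∧
      x ≠ y ∧ ¬ G.Adj x y)
    (ho : ∀ n : ℕ, ∃ (K : Finset V) (v : V), Clq G K ∧ K.card = n ∧ v ∉ K ∧
      ∀ x ∈ K, ¬ G.Adj v x) : False := by
  classical
  -- a line with two non-adjacent points
  obtain ⟨K, x0, y0, hK, hKc, hx0, hy0, hxy0, hn0⟩ := hc (2 * t + 3)
  have hfull : ∀ (K : Finset V) (x : V), Full G x K → x ∈ EL G t K := by
    intro K x hx T hT hT2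
    have : T = ∅ := Finset.eq_empty_of_forall_notMem fun a ha => hT2 a ha (hx a (hT ha))
    simp [this]
  set L0 : Set V := EL G t K with hL0
  have hL0l : LineC G t L0 := ⟨K, hK, by omega, rfl⟩
  have hxL : x0 ∈ L0 := hfull K x0 hx0
  have hyL : y0 ∈ L0 := hfull K y0 hy0
  -- any two vertices are in a common line
  have htwo : ∀ a b : V, a ≠ b → ∃ L, LineC G t L ∧ a ∈ L ∧ b ∈ L := by
    intro a b hab
    by_cases hadj : G.Adj a b
    · obtain ⟨L, hL, hsub⟩ := lineC_ex hs hcl t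
        (c2_clq_insert (c2_clq_single (G := G) b) (x := a) (by
          intro z hz
          rw [Finset.mem_singleton] at hz
          rw [hz]; exact hadj))
      exact ⟨L, hL, hsub (by simp), hsub (by simp)⟩
    · obtain ⟨φ, h | h⟩ := sh_nonadj hs hxy0 hn0 hab hadj
      · exact ⟨φ '' L0, lineC_map hL0l φ, ⟨x0, hxL, h.1⟩, ⟨y0, hyL, h.2⟩⟩
      · exact ⟨φ '' L0, lineC_map hL0l φ, ⟨y0, hyL, h.2⟩, ⟨x0, hxL, h.1⟩⟩
  -- the sizes of cliques contained in two lines
  let P : ℕ → Prop := fun j => ∃ θ : Finset V, Clq G θ ∧ θ.card = j ∧ ∃ F F' : Set V,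
    LineC G t F ∧ LineC G t F' ∧ F ≠ F' ∧ (θ : Set V) ⊆ F ∧ (θ : Set V) ⊆ F'
  have hPb : ∀ j, P j → j ≤ 2 * t + 2 := by
    rintro j ⟨θ, hθ, hj, F, F', h1, h2, h3, h4, h5⟩
    by_contra hcon
    apply h3
    rw [lineC_uniq hs hcl hF h1 hθ (by omega) h4, lineC_uniq hs hcl hF h2 hθ (by omega) h5]
  have hP1 : P 1 := by
    obtain ⟨K1, v, hK1, hK1c, hv, hv2⟩ := ho (2 * t + 3)
    have hL1 : LineC G t (EL G t K1) := ⟨K1, hK1, by omega, rfl⟩
    have hvL : v ∉ EL G t K1 := by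
      intro h
      have := h K1 (Finset.Subset.refl _) hv2
      omega
    obtain ⟨w, hw⟩ : K1.Nonempty := Finset.card_pos.1 (by omega)
    obtain ⟨F, hF1, hF2, hF3⟩ := htwo v w (by rintro rfl; exact hv hw)
    refine ⟨{w}, c2_clq_single w, by simp, F, EL G t K1, hF1, hL1, ?_, ?_, ?_⟩
    · rintro rfl
      exact hvL hF2
    · intro z hz
      rw [Finset.coe_singleton, Set.mem_singleton_iff] at hz
      rw [hz]; exact hF3
    · intro z hz
      rw [Finset.coe_singleton, Set.mem_singleton_iff] at hz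
      rw [hz]; exact EL_self hK1 hw
  obtain ⟨j, hj, hj1, hjmax⟩ : ∃ j, P j ∧ 1 ≤ j ∧ ∀ m, P m → m ≤ j :=
    ⟨Nat.findGreatest P (2 * t + 2), Nat.findGreatest_spec (hPb 1 hP1) hP1,
      Nat.le_findGreatest (hPb 1 hP1) hP1, fun m hm => Nat.le_findGreatest (hPb m hm) hm⟩
  have huniq : ∀ (Q : Finset V), Clq G Q → j < Q.card → ∀ F F' : Set V, LineC G t F →
      LineC G t F' → (Q : Set V) ⊆ F → (Q : Set V) ⊆ F' → F = F' := by
    intro Q hQ hQj F F' h1 h2 h3 h4
    by_contra h5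
    have := hjmax Q.card ⟨Q, hQ, rfl, F, F', h1, h2, h5, h3, h4⟩
    omega
  obtain ⟨θ, hθ, hθj, F, F', hFl, hFl', hFF, hθF, hθF'⟩ := hj
  -- the claim
  have claim : ∀ (θ' : Finset V) (M : Set V) (y y' : V), Clq G θ' → θ'.card = j → LineC G t M →
      (θ' : Set V) ⊆ M → y ∈ M → y' ∈ M → Full G y θ' → Full G y' θ' → y ≠ y' → G.Adj y y' := by
    intro θ' M y y' hθ' hθ'j hM hθ'M hyM hy'M hy hy' hyy
    by_contra hna
    obtain ⟨Q, hQ, hQ1, hQF, hQd, hQf⟩ := lineC_trim hs hcl hF hFl θ hθF 1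
    obtain ⟨x, rfl⟩ := Finset.card_eq_one.1 hQ1
    obtain ⟨Q', hQ', hQ1', hQF', hQd', hQf'⟩ := lineC_trim hs hcl hF hFl' θ hθF' 1
    obtain ⟨x', rfl⟩ := Finset.card_eq_one.1 hQ1'
    have hxF : x ∈ F := hQF (by simp)
    have hxF' : x' ∈ F' := hQF' (by simp)
    have hx : Full G x θ := fun a ha => (hQf a ha x (by simp)).symm
    have hx' : Full G x' θ := fun a ha => (hQf' a ha x' (by simp)).symm
    have hins : ∀ (τ : Finset V) (z : V) (S : Set V), (τ : Set V) ⊆ S → z ∈ S →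
        ((insert z τ : Finset V) : Set V) ⊆ S := by
      intro τ z S h1 h2
      rw [Finset.coe_insert]
      exact Set.insert_subset h2 h1
    -- `x` and `x'` are different and non-adjacent
    have key : ∀ Lc : Set V, LineC G t Lc → (θ : Set V) ⊆ Lc → x ∈ Lc → x' ∈ Lc → False := by
      intro Lc h1 h2 h3 h4
      apply hFF
      rw [← huniq (insert x θ) (c2_clq_insert hθ hx) (by rw [c2_card_insert hx]; omega) Lc F h1 hFl
        (hins _ _ _ h2 h3) (hins _ _ _ hθF hxF)]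
      exact huniq (insert x' θ) (c2_clq_insert hθ hx') (by rw [c2_card_insert hx']; omega) Lc F' h1
        hFl' (hins _ _ _ h2 h4) (hins _ _ _ hθF' hxF')
    have hxx : x ≠ x' := by
      intro e
      exact key F hFl hθF hxF (e ▸ hxF)
    have hxna : ¬ G.Adj x x' := by
      intro hadj
      have h1 : Full G x' (insert x θ) := by
        intro a ha
        rcases Finset.mem_insert.1 ha with rfl | ha
        · exact hadj.symm
        · exact hx' a ha
      obtain ⟨Lc, hLc, hsub⟩ := lineC_ex hs hcl t (c2_clq_insert (c2_clq_insert hθ hx) h1)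
      exact key Lc hLc (fun a ha => hsub (by
        rw [Finset.coe_insert, Finset.coe_insert]
        exact Or.inr (Or.inr ha))) (hsub (by simp)) (hsub (by simp))
    obtain ⟨φ, hφ, hφ2⟩ := sh_cone2 hs hθ hθ' (hθj.trans hθ'j.symm) hx hx' hxx hxna hy hy' hyy hna
    have hsubφ : ∀ S : Set V, (θ : Set V) ⊆ S → (θ' : Set V) ⊆ φ '' S := by
      intro S hS
      rw [← hφ]
      exact Set.image_mono hS
    have hM1 : ∀ (S : Set V) (z : V), LineC G t S → (θ' : Set V) ⊆ S → z ∈ S → Full G z θ' →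
        z ∈ M → S = M := by
      intro S z h1 h2 h3 h4 h5
      exact huniq (insert z θ') (c2_clq_insert hθ' h4) (by rw [c2_card_insert h4]; omega) S M h1 hM
        (hins _ _ _ h2 h3) (hins _ _ _ hθ'M h5)
    have e1 : φ '' F = M ∧ φ '' F' = M := by
      rcases hφ2 with ⟨h1, h2⟩ | ⟨h1, h2⟩
      · exact ⟨hM1 _ y (lineC_map hFl φ) (hsubφ F hθF) ⟨x, hxF, h1⟩ hy hyM,
          hM1 _ y' (lineC_map hFl' φ) (hsubφ F' hθF') ⟨x', hxF', h2⟩ hy' hy'M⟩
      · exact ⟨hM1 _ y' (lineC_map hFl φ) (hsubφ F hθF) ⟨x, hxF, h1⟩ hy' hy'M,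
          hM1 _ y (lineC_map hFl' φ) (hsubφ F' hθF') ⟨x', hxF', h2⟩ hy hyM⟩
    apply hFF
    exact φ.injective.image_injective (e1.1.trans e1.2.symm)
  -- the contradiction
  obtain ⟨Q, hQ, hQj, hQL, hQd, hQf⟩ := lineC_trim hs hcl hF hL0l {x0, y0} (by
    intro z hz
    simp only [Finset.coe_insert, Finset.coe_singleton, Set.mem_insert_iff,
      Set.mem_singleton_iff] at hz
    rcases hz with rfl | rfl
    · exact hxL
    · exact hyL) j
  exact hn0 (claim Q L0 x0 y0 hQ hQj hL0l hQL hxL hyL (hQf x0 (by simp)) (hQf y0 (by simp)) hxy0)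

end SetHom
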