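import Pool.Agent.Helper74.DI.St

/-!
# Project DI: module Q2A
-/

set_option autoImplicit false

namespace Pool.Agent.Helper42.DI

open Pool.Agent.Helper74 Pool.Agent.Helper74.DI
open Pool.Agent.Helper74.WB (OP QW rl enc iv ap rd Red)

/-- Nesting. -/
theorem nest {Λ : Type} (y : Λ × Bool) (o o' : Bool) (i : ℕ) (m : List ((Λ × Bool) × Bool))
    (hm : OP m) : OP (List.replicate i (y, o) ++ (m ++ List.replicate i (iv y, o'))) := by
  induction i with
  | zero => simpa using hm
  | succ i ih =>
    have e : List.replicate (i + 1) (y, o) ++ (m ++ List.replicate (i + 1) (iv y, o')) =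
        (y, o) :: ((List.replicate i (y, o) ++ (m ++ List.replicate i (iv y, o'))) ++
          (iv y, o') :: []) := by
      rw [List.replicate_succ, List.replicate_succ' (n := i) (a := (iv y, o'))]
      simp
    rw [e]
    exact OP.wrap y o o' _ [] ih OP.nil

theorem hQ2A : StQ2A := by
  intro w hq hw
  induction hw with
  | nil => exact OP.nil
  | skip x w _ ih =>
    rcases x with ⟨i, s⟩
    have hs : (true : Bool) = s := hq ((i, s), true) (by simp)
    subst hs
    have h1 : OP (w.flatMap q2) := ih fun a ha => hq a (by simp [ha])
    rw [List.flatMap_cons]
    refine WB.op_append _ _ ?_ h1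
    exact nest (true, false) false true i [((false, true), true)]
      (OP.skip (false, true) [] OP.nil)
  | wrap x o o' u v _ _ ihu ihv =>
    rcases x with ⟨i, s⟩
    have hs : o = s := hq ((i, s), o) (by simp)
    have hs' : o' = !s := hq (iv (i, s), o') (by simp)
    subst hs hs'
    have hU : OP (u.flatMap q2) := ihu fun a ha => hq a (by simp [ha])
    have hV : OP (v.flatMap q2) := ihv fun a ha => hq a (by simp [ha])
    have hM := nest (true, true) true false i _ hU
    have hN := OP.wrap (false, o) o (!o) _ [] hM OP.nil
    have hP := nest (true, false) false true i _ hN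
    have hQ := WB.op_append _ _ hP hV
    have e : (((i, o), o) :: (u ++ (iv (i, o), !o) :: v)).flatMap q2 =
        List.replicate i ((true, false), false) ++
        (((false, o), o) ::
          (List.replicate i ((true, true), true) ++
            (u.flatMap q2 ++ List.replicate i (iv (true, true), false)) ++
            (iv (false, o), !o) :: []) ++
          List.replicate i (iv (true, false), true)) ++ v.flatMap q2 := by
      simp [q2, iv]
    rw [e]
    exact hQ

end Pool.Agent.Helper42.DI
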